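import Pool.Agent.Q41.ND.Main

/-!
# No degree bound forces ND(2) in codimension three

Over every infinite field `k` there are integral curves `X ⊂ ℙ⁴` (dimension 1, codimension 3) of
arbitrarily large degree which lie on no quadric and such that every hyperplane section of `X` lies
on a quadric of the hyperplane; so `X` fails the condition ND(2). The curves lie on a projected
Veronese surface.
-/

namespace Pool.Agent.Results.MP_63e4a9_ag.VeroneseCurves

open MvPolynomial Pool.Agent.Q41.ND

theorem result (k : Type*) [Field k] [Infinite k] (D₀ : ℕ) :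
    ∃ (I : Ideal (MvPolynomial (Fin (4 + 1)) k)) (D : ℕ), D₀ < D ∧ IsVariety I 1 D ∧
      (∀ Q : MvPolynomial (Fin (4 + 1)) k, Q.IsHomogeneous 2 → Q ∈ I → Q = 0) ∧
      (∀ L : MvPolynomial (Fin (4 + 1)) k, L.IsHomogeneous 1 → L ≠ 0 →
        ¬ NoForm I (Ideal.span {L}) 2) ∧
      ¬ CondND I 3 2 :=
  ⟨Pool.Agent.Q41.ND.I k (D₀ + 5), 2 * (D₀ + 5), by omega, isVariety _ (by omega),
    fun Q hQ h => no_quadric _ (by omega) Q hQ h, fun L hL hL0 => section_quadric _ L hL hL0,
    not_ND _⟩

end Pool.Agent.Results.MP_63e4a9_ag.VeroneseCurves
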